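import Pool.Agent.X81.HalinProof

/-!
# Every cubic Halin graph of order at least six is 2-tone 6-colourable

A cubic Halin graph is a plane tree whose inner vertices have degree three together with the
cycle through its leaves in their cyclic order. Rooting the plane tree at one of its leaves turns
it into an ordered binary tree `t` (with at least two leaves) below that leaf, and the Halin graph
is `t.halin`. For `t` a single leaf or a tree with exactly two leaves the graph has order at most
four.
-/

namespace Pool.Agent.Results.MP_fbe6c8_co.HalinTwoTone

open Pool.Agent.X81.HalinTone

/-- Every cubic Halin graph of order at least six is 2-tone 6-colourable. -/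
theorem result (t : PTree) (h : 6 ≤ Nat.card (Option t.Vert)) : ToneColourable t.halin 2 6 := by
  match t, h with
  | .leaf, h =>
      exfalso
      have : Nat.card (Option (PTree.leaf).Vert) = 2 := by
        change Nat.card (Option Unit) = 2
        simp
      omega
  | .node .leaf .leaf, h =>
      exfalso
      have : Nat.card (Option (PTree.node .leaf .leaf).Vert) = 4 := by
        change Nat.card (Option (Option (Unit ⊕ Unit))) = 4
        simp
      omega
  | .node (.node a b) k, _ => exact halin_toneColourable _ _ (Or.inl (by simp))
  | .node l (.node a b), _ => exact halin_toneColourable _ _ (Or.inr (by simp))

end Pool.Agent.Results.MP_fbe6c8_co.HalinTwoTone
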